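import Pool.Agent.H.MP_2ca8f5_lc.C

set_option autoImplicit false

namespace Pool.Agent.Results.MP_2ca8f5_lc.Poly
open Pool.Agent.Lib.CX

/-- a job `(r, d, p, ls, le)` -/
abbrev Job := ℚ × ℚ × ℚ × ℚ × ℚ

/-- an instance `(L, δ, start times of the paths, jobs)` -/
abbrev Inst := ℚ × ℚ × List ℚ × List Job

def Valid (I : Inst) : Prop :=
  0 < I.1 ∧ 0 < I.2.1 ∧ I.2.2.1.Pairwise (· < ·) ∧ (∀ t ∈ I.2.2.1, 0 ≤ t) ∧
    ∀ j ∈ I.2.2.2, 0 ≤ j.1 ∧ 0 ≤ j.2.2.1 ∧ j.2.2.1 ≤ j.2.1 - j.1 ∧ 0 ≤ j.2.2.2.1 ∧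
      j.2.2.2.1 ≤ j.2.2.2.2 ∧ j.2.2.2.2 ≤ I.1

def Feasible (I : Inst) (s : Fin I.2.2.2.length → ℝ) : Prop :=
  ∀ i, (I.2.2.2[i].1 : ℝ) ≤ s i ∧ s i ≤ (I.2.2.2[i].2.1 : ℝ) - (I.2.2.2[i].2.2.1 : ℝ)

/-- the start times of the paths that meet the box of some job -/
def cancelled (I : Inst) (s : Fin I.2.2.2.length → ℝ) : Set ℚ :=
  {t | t ∈ I.2.2.1 ∧ ∃ i, (segment ℝ ((t : ℝ), (0 : ℝ)) ((t : ℝ) + (I.2.1 : ℝ), (I.1 : ℝ)) ∩
    Set.Icc (s i) (s i + (I.2.2.2[i].2.2.1 : ℝ)) ×ˢ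
      Set.Icc (I.2.2.2[i].2.2.2.1 : ℝ) (I.2.2.2[i].2.2.2.2 : ℝ)).Nonempty}

open Pool.Agent.H.MP_2ca8f5_lc Pool.Agent.Lib.helper29.CXQ in
theorem result : ∃ f : Inst → List ℚ, PT f ∧ ∀ I, Valid I →
    (f I).length = I.2.2.2.length ∧ Feasible I (fun i => ((f I).getD i 0 : ℚ)) ∧
      ∀ s, Feasible I s → (cancelled I fun i => ((f I).getD i 0 : ℚ)).ncard ≤ (cancelled I s).ncard := by
  let T : Inst → List ℚ := fun I => (-I.2.1 - 1) :: (I.2.2.1 ++ [hi (I.2.2.1 ++ I.2.2.2.map (·.2.1))])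
  let g : Inst → Job → ℚ × ℚ × ℚ := fun I j => (j.1 - I.2.1 * j.2.2.2.2 / I.1,
    j.2.1 - j.2.2.1 - I.2.1 * j.2.2.2.2 / I.1, j.2.2.1 + I.2.1 * (j.2.2.2.2 - j.2.2.2.1) / I.1)
  have pT : PT T := by fun_prop
  have pg : PT fun p : Inst × Job => g p.1 p.2 := by fun_prop
  have pk : PT fun I : Inst => keep (T I) (I.2.2.2.map (g I)) := pt_keep pT (PT.map pg (by fun_prop))
  refine ⟨fun I => I.2.2.2.map fun j => start (T I) (keep (T I) (I.2.2.2.map (g I))) (g I j) +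
    I.2.1 * j.2.2.2.2 / I.1, PT.map (pt_add (pt_start (pT.comp PT.fst') (pk.comp PT.fst') pg)
    (by fun_prop)) (by fun_prop), ?_⟩
  rintro ⟨L, δ, ts, J⟩ ⟨hL, hδ, h1, h2, h3⟩
  simp only at hL hδ h1 h2 h3
  have hp : (T (L, δ, ts, J)).Pairwise (· < ·) := by
    simp only [T, List.pairwise_cons, List.pairwise_append, List.mem_append, List.mem_singleton]
    refine ⟨?_, h1, by simp, fun a ha b hb => hb ▸ lt_hi (List.mem_append_left _ ha)⟩
    rintro a (ha | rfl)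
    · linarith [h2 a ha]
    · linarith [hi_pos (ts ++ J.map (·.2.1))]
  have hJ : ∀ j ∈ J.map (g (L, δ, ts, J)), j.1 ≤ j.2.1 ∧ 0 ≤ j.2.2 ∧ (T (L, δ, ts, J)).getD 0 0 < j.1 ∧
      j.2.1 + j.2.2 < (T (L, δ, ts, J)).getD ((T (L, δ, ts, J)).length - 1) 0 := by
    intro _ hj'
    obtain ⟨j, hj, rfl⟩ := List.mem_map.1 hj'
    obtain ⟨a1, a2, a3, a4, a5, a6⟩ := h3 j hj
    have b1 : δ * j.2.2.2.2 / L ≤ δ := (div_le_iff₀ hL).2 (by gcongr)
    have b2 : 0 ≤ δ * (j.2.2.2.2 - j.2.2.2.1) / L := by have := sub_nonneg.2 a5; positivity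
    have b3 : δ * (j.2.2.2.2 - j.2.2.2.1) / L ≤ δ * j.2.2.2.2 / L := by gcongr; linarith
    have b4 := lt_hi (l := ts ++ J.map (·.2.1)) (List.mem_append_right _ (List.mem_map_of_mem hj))
    have b5 : (T (L, δ, ts, J)).getD ((T (L, δ, ts, J)).length - 1) 0 = hi (ts ++ J.map (·.2.1)) := by
      simp [T]
    rw [b5]
    simp only [g, T, List.getD_cons_zero]
    exact ⟨by linarith, by linarith, by linarith, by linarith⟩
  have mi : ∀ (s : Fin J.length → ℝ) (t : ℚ), t ∈ cancelled (L, δ, ts, J) s ↔ t ∈ ts ∧ ∃ i,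
      s i - δ * J[i].2.2.2.2 / L ≤ t ∧ t ≤ s i - δ * J[i].2.2.2.2 / L + (g (L, δ, ts, J) J[i]).2.2 :=
    fun s t => and_congr_right fun _ => exists_congr fun i => by
      obtain ⟨a1, a2, a3, a4, a5, a6⟩ := h3 _ (List.getElem_mem i.2)
      simp only [g]
      push_cast
      exact meet_iff (by exact_mod_cast hL) (by exact_mod_cast hδ) (by exact_mod_cast a2)
        (by exact_mod_cast a4) (by exact_mod_cast a5) (by exact_mod_cast a6)
  obtain ⟨o1, o2⟩ := opt (mono hp) (by simp [T]) hJ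
  refine ⟨by simp, fun i => ?_, fun s hs => ?_⟩
  · obtain ⟨a, b⟩ := o1 _ (List.mem_map_of_mem (List.getElem_mem i.2))
    simp only [List.getD_eq_getElem?_getD, List.getElem?_map, List.getElem?_eq_getElem i.2,
      Option.map_some, Option.getD_some, Fin.getElem_fin]
    exact ⟨by exact_mod_cast sub_le_iff_le_add.1 a, by exact_mod_cast le_sub_iff_add_le.1 b⟩
  rw [← ncard_idx hp fun t ht => ht.1, ← ncard_idx hp (S := cancelled _ s) fun t ht => ht.1]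
  refine o2 _ _ (fun w hw => ⟨by have := hw.1.2; simp only [T] at *; omega, ?_⟩) (fun w hw => hw.1) ?_
  · obtain ⟨-, i, a, b⟩ := (mi _ _).1 hw.2
    simp only [List.getD_eq_getElem?_getD (l := List.map _ _), List.getElem?_map,
      List.getElem?_eq_getElem i.2, Option.map_some, Option.getD_some, Fin.getElem_fin] at a b
    push_cast at a b
    rw [add_sub_cancel_right] at a b
    exact ⟨_, List.mem_map_of_mem (List.getElem_mem i.2), by exact_mod_cast a, by exact_mod_cast b⟩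
  · intro _ hj'
    obtain ⟨-, -, c1, c2⟩ := hJ _ hj'
    obtain ⟨j, hj, rfl⟩ := List.mem_map.1 hj'
    obtain ⟨i, hi, rfl⟩ := List.getElem_of_mem hj
    obtain ⟨a, b⟩ := hs ⟨i, hi⟩
    simp only [Fin.getElem_fin] at a b
    have d1 : ((g (L, δ, ts, J) J[i]).1 : ℝ) ≤ s ⟨i, hi⟩ - δ * J[i].2.2.2.2 / L := by
      simp only [g]; push_cast; linarith
    have d2 : s ⟨i, hi⟩ - δ * J[i].2.2.2.2 / L ≤ ((g (L, δ, ts, J) J[i]).2.1 : ℝ) := by
      simp only [g]; push_cast; linarith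
    refine ⟨_, d1, d2, fun w hw e1 e2 => ?_⟩
    have w1 : 0 < w := Nat.pos_of_ne_zero fun h => by
      subst h
      exact absurd (d1.trans e1) (not_le.2 (by exact_mod_cast c1))
    have w2 : w + 1 < (T (L, δ, ts, J)).length := lt_of_le_of_ne hw fun h => by
      rw [← h, Nat.add_sub_cancel] at c2
      have : ((g (L, δ, ts, J) J[i]).2.1 : ℝ) + (g (L, δ, ts, J) J[i]).2.2 < (T (L, δ, ts, J)).getD w 0 := by
        exact_mod_cast c2
      linarith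
    exact ⟨⟨w1, w2⟩, (mi _ _).2 ⟨mem_mid w1 w2, ⟨i, hi⟩, e1, e2⟩⟩

end Pool.Agent.Results.MP_2ca8f5_lc.Poly
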